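import Pool.Agent.H38.Jit.Q6

/-!
Maximum deviation just-in-time sequencing with binary demands: one letter of an arbitrary optimal
sequence decides any NP language, so a polynomial-time implicit solution exists only if P = NP.
-/

namespace Pool.Agent.Results.MP_033923_lc.MaxHard

open Pool.Agent.H38.NP Pool.Agent.H38.Jit

theorem result :
    ∀ A, InNP A → ∃ f, PolyTime f ∧ ∀ x, ∃ (d : List Bin) (k : Fin (d.map Bin.val).sum),
      f x = enc (d, Bin.mk k.val) ∧ (∀ z ∈ d, 0 < z.val) ∧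
        ∀ S, MaxOpt (d.map Bin.val) S → (x ∈ A ↔ 2 ≤ (S k).val) := by
  intro A hA
  obtain ⟨g, hg, e⟩ := sat3_nph A hA
  refine ⟨_, PT.polyTime ((pt_dmB.comp hg).mk (pt_psB.comp hg)).raw, fun x => ?_⟩
  obtain ⟨k, h1, h2⟩ := max_key (g ⟨x⟩)
  exact ⟨dmB (g ⟨x⟩), k, by rw [h1]; rfl, pos_dmB _, fun S hS => (e ⟨x⟩).2.trans (h2 S hS)⟩

end Pool.Agent.Results.MP_033923_lc.MaxHard
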