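import Pool.Agent.H38.Jit.Q6

/-!
Total deviation just-in-time sequencing with binary demands and piecewise linear convex penalty:
one letter of an arbitrary optimal sequence decides any NP language, so a polynomial-time implicit
solution exists only if P = NP.
-/

namespace Pool.Agent.Results.MP_033923_lc.TotHard

open Pool.Agent.H38.NP Pool.Agent.H38.Jit

theorem result :
    ∀ A, InNP A → ∃ f, PolyTime f ∧ ∀ x, ∃ (F : List (Bin × Bin × Bin)) (d : List Bin)
      (k : Fin (d.map Bin.val).sum), f x = enc ((F, d), Bin.mk k.val) ∧ (∀ z ∈ d, 0 < z.val) ∧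
        ∀ S, TotOpt F (d.map Bin.val) S → (x ∈ A ↔ 2 ≤ (S k).val) := by
  intro A hA
  obtain ⟨g, hg, e⟩ := sat3_nph A hA
  refine ⟨_, PT.polyTime (((pt_penB.comp hg).mk (pt_dmB.comp hg)).mk (pt_psB.comp hg)).raw,
    fun x => ?_⟩
  obtain ⟨k, h1, h2⟩ := tot_key (g ⟨x⟩)
  exact ⟨penB (g ⟨x⟩), dmB (g ⟨x⟩), k, by rw [h1]; rfl, pos_dmB _,
    fun S hS => (e ⟨x⟩).2.trans (h2 S hS)⟩

end Pool.Agent.Results.MP_033923_lc.TotHard
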